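import Mathlib

set_option autoImplicit false

/-! Key lemma on words for piece (D3) of FC. -/

namespace Pool.Agent.T9h60.FC

variable {α : Type} [DecidableEq α]

/-- if the norm is additive then the word of the product is the concatenation -/
lemma toWord_append {x y : FreeGroup α}
    (h : FreeGroup.norm x + FreeGroup.norm y ≤ FreeGroup.norm (x * y)) :
    FreeGroup.toWord (x * y) = FreeGroup.toWord x ++ FreeGroup.toWord y := by
  refine (FreeGroup.toWord_mul_sublist x y).eq_of_length_le ?_
  rw [List.length_append]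
  exact h

lemma toWord_letter (t : α × Bool) : FreeGroup.toWord (FreeGroup.mk [t]) = [t] := by
  rw [FreeGroup.toWord_mk]
  rfl

lemma norm_letter (t : α × Bool) : FreeGroup.norm (FreeGroup.mk [t]) = 1 := by
  unfold FreeGroup.norm
  rw [toWord_letter]
  rfl

/-- `g = g' t` reduced, `t w` reduced: then `g w` is reduced -/
theorem toWord_gw {g g' w : FreeGroup α} {t : α × Bool} (hg : g = g' * FreeGroup.mk [t])
    (hgl : FreeGroup.norm g = FreeGroup.norm g' + 1)
    (htw : FreeGroup.norm (FreeGroup.mk [t] * w) = FreeGroup.norm w + 1) :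
    FreeGroup.toWord (g * w) = FreeGroup.toWord g ++ FreeGroup.toWord w := by
  have h1 : FreeGroup.toWord g = FreeGroup.toWord g' ++ [t] := by
    rw [hg, toWord_append, toWord_letter]
    rw [← hg, norm_letter, hgl]
  have h2 : FreeGroup.toWord (FreeGroup.mk [t] * w) = [t] ++ FreeGroup.toWord w := by
    rw [toWord_append, toWord_letter]
    rw [norm_letter, htw, add_comm]
  have h3 : FreeGroup.IsReduced (FreeGroup.toWord g' ++ [t]) := by
    rw [← h1]
    exact FreeGroup.isReduced_toWord
  have h4 : FreeGroup.IsReduced ([t] ++ FreeGroup.toWord w) := by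
    rw [← h2]
    exact FreeGroup.isReduced_toWord
  have h5 := h3.append_overlap h4 (by simp)
  rw [FreeGroup.toWord_mul, h1]
  exact h5.reduce_eq

theorem norm_gw {g g' w : FreeGroup α} {t : α × Bool} (hg : g = g' * FreeGroup.mk [t])
    (hgl : FreeGroup.norm g = FreeGroup.norm g' + 1)
    (htw : FreeGroup.norm (FreeGroup.mk [t] * w) = FreeGroup.norm w + 1) :
    FreeGroup.norm (g * w) = FreeGroup.norm g + FreeGroup.norm w := by
  unfold FreeGroup.norm at *
  rw [toWord_gw hg hgl htw, List.length_append]

/-- **the key lemma** -/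
theorem key {g g' w h w' : FreeGroup α} {t : α × Bool} (hg : g = g' * FreeGroup.mk [t])
    (hgl : FreeGroup.norm g = FreeGroup.norm g' + 1)
    (htw : FreeGroup.norm (FreeGroup.mk [t] * w) = FreeGroup.norm w + 1)
    (hh : FreeGroup.norm h ≤ FreeGroup.norm g) (hw' : FreeGroup.norm w' ≤ FreeGroup.norm w)
    (heq : g * w = h * w') : h = g := by
  have h1 := toWord_gw hg hgl htw
  have h2 := norm_gw hg hgl htw
  have h3 : FreeGroup.toWord (h * w') = FreeGroup.toWord h ++ FreeGroup.toWord w' := by
    apply toWord_append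
    rw [← heq, h2]
    omega
  have h4 : FreeGroup.norm (h * w') = FreeGroup.norm h + FreeGroup.norm w' := by
    unfold FreeGroup.norm
    rw [h3, List.length_append]
  rw [← heq, h2] at h4
  have h5 : FreeGroup.norm h = FreeGroup.norm g := by omega
  rw [← heq, h1] at h3
  have h6 := List.append_inj h3 h5.symm
  exact (FreeGroup.toWord_injective h6.1).symm

/-- every nontrivial `g` is `g' t` reduced -/
theorem last_letter {g : FreeGroup α} (hg : FreeGroup.norm g ≠ 0) :
    ∃ (g' : FreeGroup α) (t : α × Bool), g = g' * FreeGroup.mk [t] ∧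
      FreeGroup.norm g = FreeGroup.norm g' + 1 := by
  have h1 : FreeGroup.toWord g ≠ [] := by
    intro h
    apply hg
    unfold FreeGroup.norm
    rw [h]
    rfl
  obtain ⟨w, t, hw⟩ := List.eq_nil_or_concat (FreeGroup.toWord g) |>.resolve_left h1
  have h2 : FreeGroup.IsReduced (w ++ [t]) := by
    rw [← List.concat_eq_append, ← hw]
    exact FreeGroup.isReduced_toWord
  have h3 : FreeGroup.IsReduced w := List.IsChain.left_of_append h2
  refine ⟨FreeGroup.mk w, t, ?_, ?_⟩
  · rw [FreeGroup.mul_mk, ← List.concat_eq_append, ← hw, FreeGroup.mk_toWord]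
  · unfold FreeGroup.norm
    rw [FreeGroup.toWord_mk, h3.reduce_eq, hw]
    simp

end Pool.Agent.T9h60.FC
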